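import Pool.Agent.MP_4baaa2_an.Mg.H94_Main

namespace Pool.Agent.Results.MP_4baaa2_an.General

open Pool.Agent.MP_4baaa2_an Pool.Agent.MP_4baaa2_an.H94

/-- A bounded linearly convex domain `D ∋ 0` of `ℂ^n`, `n ≥ 2`, with all sets `Γ(z)` connected is
approximable from inside. No regularity of the boundary is assumed. -/
theorem result (n : ℕ) (hn : 2 ≤ n) (D : Set (E n)) (hopen : IsOpen D) (hconn : IsConnected D)
    (hbdd : Bornology.IsBounded D) (hzero : (0 : E n) ∈ D) (hlc : LinConvex D)
    (hgam : ∀ z ∈ frontier D, IsConnected (Gam D z)) : Approximable D :=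
  general hn hopen hconn hbdd hzero hlc hgam

end Pool.Agent.Results.MP_4baaa2_an.General
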